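import Pool.Agent.H19.Zn.Fill

set_option autoImplicit false

open MvPolynomial Filter Topology

/-!
# The numbers of zeros of nonnegative ternary forms

`counts n` is the set of the numbers of real projective zeros of the nonnegative real ternary forms
of degree `n` with finitely many real projective zeros, and `B n = sSup (counts n)` is `B_{n,3}`
(definitions of the library module `Helper186_L38.Defs`, repeated in `counts_iff` and `B_eq`).

For every even `n ≥ 2` the set `counts n` has the greatest element `B n`, which is `3 n² / 8` up to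
an explicit linear error, and it contains every integer up to `3 n² / 8 - 11 n^{3/2}`.

The bounds for `B n` come from the two bounds in the proof of the limit in the library (and, for
`n = 2`, a grid). For the other numbers, a form is multiplied by sums of squares of products of lines whose zeros form grids, placed
off the zeros there are already; by the theorem of Lagrange four grids supply any number of zeros.
-/

namespace Pool.Agent.Results.MP_9d788c_ag.NumbersOfZeros

open Pool.Agent.Helper186_L38 Pool.Agent.Helper186_L38.FinAux Pool.Agent.H19.Zn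

/-- The definition of `counts`, spelled out. -/
theorem counts_iff (n N : ℕ) : N ∈ counts n ↔ ∃ F : MvPolynomial (Fin 3) ℝ, F.IsHomogeneous n ∧
    (∀ v : Fin 3 → ℝ, 0 ≤ eval v F) ∧
    {q : Projectivization ℝ (Fin 3 → ℝ) | ∀ (v : Fin 3 → ℝ) (hv : v ≠ 0),
      Projectivization.mk ℝ v hv = q → eval v F = 0}.Finite ∧
    {q : Projectivization ℝ (Fin 3 → ℝ) | ∀ (v : Fin 3 → ℝ) (hv : v ≠ 0),
      Projectivization.mk ℝ v hv = q → eval v F = 0}.ncard = N := Iff.rfl

/-- The definition of `B`, spelled out. -/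
theorem B_eq (n : ℕ) : B n = sSup (counts n) := rfl

theorem lb' : S_LB := Pool.Agent.Results.MP_9d788c_ag.LimitThreeEighths.lower

theorem ub' : S_UB := Pool.Agent.Results.MP_9d788c_ag.LimitThreeEighths.upper

theorem bounds (n : ℕ) (hn : Even n) (h2 : 2 ≤ n) : IsGreatest (counts n) (B n) ∧
    3 / 8 * (n : ℝ) ^ 2 - 15 / 4 * n + 7 ≤ B n ∧ (B n : ℝ) ≤ 3 / 8 * (n : ℝ) ^ 2 + n / 4 := by
  obtain ⟨k, rfl⟩ := hn
  rw [← two_mul] at h2 ⊢
  refine ⟨⟨B_mem ub' k, fun N hN => le_csSup (bdd ub' k) hN⟩, ?_, ?_⟩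
  · have h := lower_all lb' ub' k (by omega)
    have h' : (3 * k ^ 2 + 14 : ℝ) ≤ 2 * B (2 * k) + 15 * k := by exact_mod_cast h
    push_cast
    nlinarith
  · have h := B_upper ub' k
    have h' : (2 * B (2 * k) : ℝ) ≤ 3 * k ^ 2 + k := by exact_mod_cast h
    push_cast
    nlinarith

theorem attained (n N : ℕ) (hn : Even n)
    (hN : (N : ℝ) + 11 * n * √(n : ℝ) ≤ 3 / 8 * (n : ℝ) ^ 2) : N ∈ counts n := by
  obtain ⟨k, rfl⟩ := hn
  rw [← two_mul] at hN ⊢
  push_cast at hN
  rcases Nat.eq_zero_or_pos k with rfl | hk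
  · have : N = 0 := by
      have h : (N : ℝ) ≤ 0 := by simpa using hN
      exact_mod_cast le_antisymm h (Nat.cast_nonneg N)
    subst this
    exact zero_mem 0
  set x : ℝ := √(k : ℝ) with hx
  have hk1 : (1 : ℝ) ≤ k := by exact_mod_cast hk
  have hxk : x ^ 2 = k := Real.sq_sqrt (by positivity)
  have hx1 : 1 ≤ x := by rw [hx]; exact Real.one_le_sqrt.mpr hk1
  have hs : 1.41 * x ≤ √(2 * (k : ℝ)) := by
    apply Real.le_sqrt_of_sq_le
    rw [← hxk]
    nlinarith [sq_nonneg x]
  have hN' : (N : ℝ) + 31.02 * x ^ 3 ≤ 1.5 * x ^ 4 := by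
    have h1 : 22 * x ^ 2 * (1.41 * x) ≤ 22 * x ^ 2 * √(2 * (k : ℝ)) :=
      mul_le_mul_of_nonneg_left hs (by positivity)
    rw [← hxk] at hN h1
    nlinarith
  have hN0 : (0 : ℝ) ≤ N := Nat.cast_nonneg N
  have hx20 : 20 ≤ x := by
    by_contra hcon
    push Not at hcon
    have h3 : 0 < x ^ 3 := by positivity
    nlinarith
  set t : ℕ := ⌈(6.64 : ℝ) * x⌉₊ with ht
  have ht1 : (6.64 : ℝ) * x ≤ t := Nat.le_ceil _
  have ht2 : (t : ℝ) < 6.64 * x + 1 := Nat.ceil_lt_add_one (by positivity)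
  have htk : t < k := by
    have : (t : ℝ) < k := by rw [← hxk]; nlinarith
    exact_mod_cast this
  have h44 : 44 * k ≤ t ^ 2 := by
    have : (44 * k : ℝ) ≤ (t : ℝ) ^ 2 := by rw [← hxk]; nlinarith
    exact_mod_cast this
  apply mem_of_lt lb' ub' h44 htk.le
  have hlow := lower_all lb' ub' (k - t) (by omega)
  have hlow' : (3 * ((k - t : ℕ) : ℝ) ^ 2 + 14 : ℝ) ≤ 2 * B (2 * (k - t)) + 15 * ((k - t : ℕ) : ℝ) := by
    exact_mod_cast hlow
  rw [Nat.cast_sub htk.le, ← hxk] at hlow'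
  have hfin : (N : ℝ) < B (2 * (k - t)) := by
    have e1 : x ^ 2 * t ≤ x ^ 2 * (6.64 * x + 1) :=
      mul_le_mul_of_nonneg_left ht2.le (by positivity)
    have ht0 : (0 : ℝ) ≤ t := Nat.cast_nonneg t
    have e2 : x ^ 2 * 20 ≤ x ^ 2 * x := mul_le_mul_of_nonneg_left hx20 (by positivity)
    nlinarith [sq_nonneg (t : ℝ)]
  exact_mod_cast hfin

/-- For every even `n ≥ 2`, the set `counts n` of the numbers of real zeros of the nonnegative
ternary forms of degree `n` with isolated real zeros has the greatest element `B n`,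
`3n²/8 - 15n/4 + 7 ≤ B n ≤ 3n²/8 + n/4`, and `counts n` contains every natural number
`N ≤ 3n²/8 - 11 n √n`. In particular `B n / n²` tends to `3/8`. -/
theorem result :
    (∀ n : ℕ, Even n → 2 ≤ n → IsGreatest (counts n) (B n) ∧
      3 / 8 * (n : ℝ) ^ 2 - 15 / 4 * n + 7 ≤ B n ∧ (B n : ℝ) ≤ 3 / 8 * (n : ℝ) ^ 2 + n / 4 ∧
      ∀ N : ℕ, (N : ℝ) + 11 * n * √(n : ℝ) ≤ 3 / 8 * (n : ℝ) ^ 2 → N ∈ counts n) ∧
    Tendsto (fun k : ℕ => (B (2 * k) : ℝ) / ((2 * k : ℕ) : ℝ) ^ 2) atTop (𝓝 (3 / 8)) :=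
  ⟨fun n hn h2 => ⟨(bounds n hn h2).1, (bounds n hn h2).2.1, (bounds n hn h2).2.2,
    fun N => attained n N hn⟩, Pool.Agent.Results.MP_9d788c_ag.LimitThreeEighths.result.2⟩

end Pool.Agent.Results.MP_9d788c_ag.NumbersOfZeros
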